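import Mathlib
import Pool.Agent.H8.AL2

namespace Pool.Agent.Results.MP_a9e7a9_an.Fixed
open Pool.Agent.H8.AL

variable {H : Type*} [NormedAddCommGroup H] [InnerProductSpace ℂ H] [CompleteSpace H]

/-- `|T|^mu V |T|^(1-mu)`, where `|T| = (T* T)^(1/2)`. -/
noncomputable def aluthge (mu : ℝ) (T V : H →L[ℂ] H) : H →L[ℂ] H :=
  (CFC.abs T) ^ mu * V * (CFC.abs T) ^ (1 - mu)

/-- The mean transform with parameter `l`. -/
noncomputable def mean (l : ℝ) (T V : H →L[ℂ] H) : H →L[ℂ] H :=
  (1 / 2 : ℂ) • (aluthge l T V + aluthge (1 - l) T V)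

theorem result (l : ℝ) (hl0 : 0 ≤ l) (hl1 : l ≤ 1 / 2) (T V : H →L[ℂ] H)
    (hV : V * star V * V = V) (hker : ∀ x, V x = 0 ↔ T x = 0) (hT : T = V * CFC.abs T) :
    mean l T V = T ↔ T * (star T * T) = (star T * T) * T := by
  have hP : 0 ≤ CFC.abs T := CFC.abs_nonneg T
  have hPP := CFC.abs_mul_abs T
  have rp : ∀ y : ℝ, (CFC.abs T) ^ y = F (CFC.abs T) (fun t => t ^ y) :=
    fun y => CFC.rpow_eq_cfc_real hP
  have sP := hP.isSelfAdjoint.star_eq
  unfold mean aluthge
  simp only [rp]
  generalize CFC.abs T = P at *
  have hVP : star V * V * P = P := by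
    have h1 : star (P - star V * V * P) * (P - star V * V * P) = 0 := by
      have e1 : P * (star V * (V * P)) = P * P := by
        rw [hPP]; nth_rw 1 [hT]; nth_rw 1 [hT]
        rw [star_mul, sP]; simp only [mul_assoc]
      have e2 : V * (star V * (V * P)) = V * P := by
        rw [← mul_assoc, ← mul_assoc, hV]
      simp only [star_sub, star_mul, star_star, sP, mul_sub, sub_mul, mul_assoc, e2, e1, sub_self]
    rw [CStarRing.star_mul_self_eq_zero_iff, sub_eq_zero] at h1
    exact h1.symm
  rw [← hPP]
  constructor
  · intro h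
    have h2 : F P (fun t => t ^ l) * V * F P (fun t => t ^ (1 - l))
        + F P (fun t => t ^ (1 - l)) * V * F P (fun t => t ^ (1 - (1 - l))) = (2 : ℝ) • (V * P) := by
      rw [← hT, ← h, two_smul, ← add_smul]; norm_num
    rw [hT]
    rcases eq_or_lt_of_le hl0 with h0 | h0
    · subst h0
      simp only [sub_zero, sub_self, Real.rpow_zero, Real.rpow_one, Fid hP, Fconst hP, map_one,
        one_mul, mul_one, two_smul, add_right_inj] at h2
      rw [mul_assoc P P, ← mul_assoc P V, h2, ← mul_assoc P, ← mul_assoc P V, h2]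
      simp only [mul_assoc]
    · rcases subsingleton_or_nontrivial (H →L[ℂ] H) with hs | hs
      · exact Subsingleton.elim _ _
      have nV : ‖V‖ ≤ 1 := by
        have e : IsStarProjection (star V * V) :=
          ⟨by
            show star V * V * (star V * V) = star V * V
            rw [mul_assoc, ← mul_assoc V, hV], IsSelfAdjoint.star_mul_self V⟩
        have := e.norm_le
        rw [CStarRing.norm_star_mul_self] at this
        nlinarith [norm_nonneg V]
      exact final hP h0 hl1 h2 nV hVP
  · intro h
    have c1 : Commute (P * P) T := h.symm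
    have c2 := c1.cfc_real Real.sqrt
    have e0 : cfc Real.sqrt (P * P) = P := by
      have := Fmul P continuous_id' continuous_id'
      rw [Fid hP] at this
      rw [this]
      unfold F
      rw [← cfc_comp' Real.sqrt (fun t => t * t) P Real.continuous_sqrt.continuousOn
        (continuous_id'.mul continuous_id').continuousOn hP.isSelfAdjoint]
      exact Eq.trans (Fcongr (fun t ht => Real.sqrt_mul_self (sp0 hP ht))) (Fid hP)
    rw [e0] at c2
    have z1 : (V * P - P * V) * P = 0 := by
      rw [sub_mul, mul_assoc P, ← hT, c2.eq, sub_self]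
    have z2 : P * star (V * P - P * V) = 0 := by
      have := congrArg star z1
      rwa [star_mul, sP, star_zero] at this
    have z3 : V * star (V * P - P * V) = 0 := by
      ext y
      have : (T * star (V * P - P * V)) y = 0 := by
        rw [hT, mul_assoc, z2, mul_zero]; rfl
      exact (hker _).mpr this
    have z4 : (V * P - P * V) * star (V * P - P * V) = 0 := by
      rw [sub_mul, mul_assoc, mul_assoc, z2, z3, mul_zero, mul_zero, sub_self]
    rw [CStarRing.mul_star_self_eq_zero_iff, sub_eq_zero] at z4
    have c3 : Commute P V := z4.symm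
    have key : ∀ y : ℝ, 0 ≤ y → y ≤ 1 →
        F P (fun t => t ^ y) * V * F P (fun t => t ^ (1 - y)) = V * P := by
      intro y hy hy1
      have c4 : F P (fun t => t ^ y) * V = V * F P (fun t => t ^ y) := (c3.cfc_real _).eq
      rw [c4, mul_assoc, Fmul P (crp hy) (crp (by linarith))]
      congr 1
      refine Eq.trans (Fcongr (fun t ht => ?_)) (Fid hP)
      rw [← Real.rpow_add' (sp0 hP ht) (by linarith)]; simp
    rw [key l hl0 (by linarith), key (1 - l) (by linarith) (by linarith), ← hT, smul_add, ← add_smul]
    norm_num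

end Pool.Agent.Results.MP_a9e7a9_an.Fixed
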